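import Pool.Graph.R_seed8.Results.MP_faa006_lc.NotDefinable

/-!
# MP_faa006_lc: the conditional-equational theory of integral domains with common division

Among commutative rings with common division, the conditional equations that are true in all integral
domains with common division follow from the equation `1 ÷ 0 = ⊥` and one conditional equation
`a·(x·x) = 0 ∧ 0·y = 0 ∧ 1 ÷ (1 - a·y) = ⊥ → x = 0`; the commutative rings which satisfy all of them
are exactly the nonzero reduced rings all of whose zero divisors lie in the Jacobson radical.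
-/

set_option autoImplicit false

universe u v

namespace Pool.Agent.Results.MP_faa006_lc.ExactTheory

open Pool.Agent.Results.MP_faa006_lc.NotDefinable

/-- The equation `1 ÷ 0 = ⊥`. -/
def E₀ : CondEq := ⟨[], (.div .one .zero, .bot)⟩

/-- The conditional equation `a·(x·x) = 0 ∧ 0·y = 0 ∧ 1 ÷ (1 + -(a·y)) = ⊥ → x = 0`. -/
def E₁ : CondEq :=
  ⟨[(.mul (.var 0) (.mul (.var 1) (.var 1)), .zero),
    (.mul .zero (.var 2), .zero),
    (.div .one (.add .one (.neg (.mul (.var 0) (.var 2)))), .bot)],
   (.var 1, .zero)⟩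

/-- Every assignment is transported by a ring homomorphism that reflects units. -/
theorem eval_map {R : Type u} {S : Type v} [CommRing R] [CommRing S] (f : R →+* S)
    (hf : ∀ a, IsUnit (f a) → IsUnit a) (e : ℕ → Option R) (t : Term) :
    (t.eval (enl R) e).map f = t.eval (enl S) (fun k => (e k).map f) := by
  classical
  induction t with
  | var i => rfl
  | zero => simp [Term.eval, enl]
  | one => simp [Term.eval, enl]
  | bot => simp [Term.eval, enl]
  | add s t hs ht =>
    simp only [Term.eval, ← hs, ← ht]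
    rcases s.eval (enl R) e with _ | a <;> rcases t.eval (enl R) e with _ | b <;> simp [enl]
  | neg s hs =>
    simp only [Term.eval, ← hs]
    rcases s.eval (enl R) e with _ | a <;> simp [enl]
  | mul s t hs ht =>
    simp only [Term.eval, ← hs, ← ht]
    rcases s.eval (enl R) e with _ | a <;> rcases t.eval (enl R) e with _ | b <;> simp [enl]
  | div s t hs ht =>
    simp only [Term.eval, ← hs, ← ht]
    rcases s.eval (enl R) e with _ | a
    · simp [enl]
    rcases t.eval (enl R) e with _ | b
    · simp [enl]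
    by_cases hb : IsUnit b
    · have hb' : IsUnit (f b) := hb.map f
      have hinv : f (Ring.inverse b) = Ring.inverse (f b) := by
        obtain ⟨w, rfl⟩ := hb
        rw [Ring.inverse_unit]
        have : (f (w : R)) = ((Units.map (f : R →* S) w : Sˣ) : S) := rfl
        rw [this, Ring.inverse_unit]
        rfl
      simp [enl, hb, hb', hinv]
    · have hb' : ¬ IsUnit (f b) := fun h => hb (hf b h)
      simp [enl, hb, hb']

/-- Satisfaction is transported along isomorphisms. -/
theorem sat_of_iso {X : Type u} {Y : Type v} {M : Alg X} {N : Alg Y} {f : X → Y}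
    (h : IsIso M N f) (q : CondEq) (hq : N.Sat q) : M.Sat q := by
  have key : ∀ (e : ℕ → X) (t : Term), f (t.eval M e) = t.eval N (fun k => f (e k)) := by
    intro e t
    induction t with
    | var i => rfl
    | zero => exact h.zero
    | one => exact h.one
    | bot => exact h.bot
    | add s t hs ht => simp only [Term.eval, ← hs, ← ht, h.add]
    | neg s hs => simp only [Term.eval, ← hs, h.neg]
    | mul s t hs ht => simp only [Term.eval, ← hs, ← ht, h.mul]
    | div s t hs ht => simp only [Term.eval, ← hs, ← ht, h.div]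
  intro e he
  apply h.bij.1
  rw [key, key]
  apply hq
  intro p hp
  rw [← key, ← key, he p hp]

theorem isIso_id (S : Type u) [CommRing S] : IsIso (enl S) (enl S) id :=
  ⟨Function.bijective_id, rfl, rfl, rfl, fun _ _ => rfl, fun _ => rfl, fun _ _ => rfl,
    fun _ _ => rfl⟩

/-- `E₀` holds exactly in nonzero rings. -/
theorem sat_E₀_iff (R : Type u) [CommRing R] : (enl R).Sat E₀ ↔ Nontrivial R := by
  classical
  have h0 : (enl R).Sat E₀ ↔ ¬ IsUnit (0 : R) := by
    constructor
    · intro h hu
      have := h (fun _ => none) (by simp [E₀])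
      simp [E₀, Term.eval, enl, hu] at this
    · intro hu e _
      simp [E₀, Term.eval, enl, hu]
  rw [h0, isUnit_zero_iff]
  constructor
  · intro h
    exact ⟨⟨0, 1, h⟩⟩
  · intro h
    exact zero_ne_one

/-- What `E₁` says in a ring. -/
theorem sat_E₁_iff (R : Type u) [CommRing R] :
    (enl R).Sat E₁ ↔ ∀ a x y : R, a * (x * x) = 0 → ¬ IsUnit (1 + -(a * y)) → x = 0 := by
  classical
  constructor
  · intro h a x y hax hy
    have := h (fun k => if k = 0 then some a else if k = 1 then some x else some y) (by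
      simp [E₁, Term.eval, enl, hax, hy])
    simpa [E₁, Term.eval, enl] using this
  · intro h e he
    simp only [E₁, List.mem_cons, List.not_mem_nil, or_false, forall_eq_or_imp, forall_eq,
      Term.eval] at he ⊢
    obtain ⟨h1, h2, h3⟩ := he
    rcases he0 : e 0 with _ | a
    · rw [he0] at h1
      simp [enl] at h1
    rcases he1 : e 1 with _ | x
    · rw [he1] at h1
      simp [enl] at h1
    rcases he2 : e 2 with _ | y
    · rw [he2] at h2
      simp [enl] at h2
    rw [he0, he1] at h1
    rw [he0, he2] at h3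
    have h1' : a * (x * x) = 0 := by simpa [enl] using h1
    have h3' : ¬ IsUnit (1 + -(a * y)) := by
      intro hu
      simp [enl, hu] at h3
    simp [enl, h a x y h1' h3']

theorem reduced_of {R : Type u} [CommRing R] (h : ∀ x : R, x * x = 0 → x = 0) : IsReduced R :=
  (isReduced_iff_pow_one_lt 2 (by norm_num)).2 fun x hx => h x (by rw [← sq]; exact hx)

/-- The equivalences. -/
theorem tfae (R : Type u) [CommRing R] : List.TFAE [
    ∀ q : CondEq, (∀ (X : Type u) (M : Alg X), IsCID M → M.Sat q) → (enl R).Sat q,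
    (enl R).Sat E₀ ∧ (enl R).Sat E₁,
    Nontrivial R ∧ IsReduced R ∧ ∀ a x : R, a * x = 0 → x ≠ 0 → a ∈ (⊥ : Ideal R).jacobson,
    Nontrivial R ∧ ∀ x : R, x ≠ 0 →
      ∃ P : Ideal R, P.IsPrime ∧ P ≤ (⊥ : Ideal R).jacobson ∧ x ∉ P] := by
  tfae_have 1 → 2 := by
    intro h
    refine ⟨h _ ?_, h _ ?_⟩
    · rintro X M ⟨D, _, _, f, hf⟩
      exact sat_of_iso hf _ ((sat_E₀_iff D).2 inferInstance)
    · rintro X M ⟨D, _, _, f, hf⟩
      refine sat_of_iso hf _ ((sat_E₁_iff D).2 ?_)
      intro a x y hax hu
      rcases mul_eq_zero.1 hax with rfl | hx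
      · exact absurd (by simp) hu
      · exact mul_self_eq_zero.1 hx
  tfae_have 2 → 3 := by
    rintro ⟨h0, h1⟩
    have hn : Nontrivial R := (sat_E₀_iff R).1 h0
    rw [sat_E₁_iff] at h1
    refine ⟨hn, reduced_of fun x hx => ?_, fun a x hax hx => ?_⟩
    · exact h1 1 x 1 (by rw [hx, mul_zero]) (by simp)
    · rw [Ideal.mem_jacobson_bot]
      intro y
      by_contra hu
      refine hx (h1 a x (-y) ?_ ?_)
      · rw [← mul_assoc, hax, zero_mul]
      · rwa [mul_neg, neg_neg, add_comm]
  tfae_have 3 → 4 := by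
    rintro ⟨hn, hr, hz⟩
    refine ⟨hn, fun x hx => ?_⟩
    have hdis : Disjoint ((⊥ : Ideal R) : Set R)
        ((Submonoid.powers x ⊔ nonZeroDivisors R : Submonoid R) : Set R) := by
      rw [Set.disjoint_left]
      intro z hz0 hzS
      have hz0' : z = 0 := by simpa using hz0
      obtain ⟨b, hb, c, hc, hbc⟩ := Submonoid.mem_sup.1 hzS
      obtain ⟨n, rfl⟩ := hb
      rw [hz0'] at hbc
      have h1 : x ^ n = 0 := (mul_right_mem_nonZeroDivisors_eq_zero_iff hc).1 hbc
      exact hx (eq_zero_of_pow_eq_zero h1)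
    obtain ⟨P, hP, -, hPd⟩ := Ideal.exists_le_prime_disjoint _ _ hdis
    refine ⟨P, hP, ?_, ?_⟩
    · intro a ha
      have hna : a ∉ nonZeroDivisors R := fun h =>
        Set.disjoint_left.1 hPd ha ((le_sup_right : nonZeroDivisors R ≤ _) h)
      by_contra hcon
      apply hna
      rw [mem_nonZeroDivisors_iff_right]
      intro y hy
      by_contra hy0
      exact hcon (hz a y (by rw [mul_comm]; exact hy) hy0)
    · intro hxP
      exact Set.disjoint_left.1 hPd hxP
        ((le_sup_left : Submonoid.powers x ≤ _) (Submonoid.mem_powers x))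
  tfae_have 4 → 1 := by
    rintro ⟨hn, h⟩ q hq e he
    by_contra hcon
    obtain ⟨P, hP, hPJ, hne⟩ : ∃ P : Ideal R, P.IsPrime ∧ P ≤ (⊥ : Ideal R).jacobson ∧
        (q.concl.1.eval (enl R) e).map (Ideal.Quotient.mk P) ≠
          (q.concl.2.eval (enl R) e).map (Ideal.Quotient.mk P) := by
      rcases h1 : q.concl.1.eval (enl R) e with _ | a <;>
        rcases h2 : q.concl.2.eval (enl R) e with _ | b
      · rw [h1, h2] at hcon
        exact absurd rfl hcon
      · obtain ⟨P, hP, hPJ, -⟩ := h 1 one_ne_zero
        exact ⟨P, hP, hPJ, by simp⟩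
      · obtain ⟨P, hP, hPJ, -⟩ := h 1 one_ne_zero
        exact ⟨P, hP, hPJ, by simp⟩
      · have hab : a - b ≠ 0 := by
          intro hab
          rw [h1, h2, sub_eq_zero.1 hab] at hcon
          exact hcon rfl
        obtain ⟨P, hP, hPJ, hx⟩ := h (a - b) hab
        refine ⟨P, hP, hPJ, fun heq => hx ?_⟩
        simp only [Option.map_some, Option.some.injEq] at heq
        exact Ideal.Quotient.eq.1 heq
    have hloc : IsLocalHom (Ideal.Quotient.mk P) := isLocalHom_of_le_jacobson_bot P hPJ
    have hf : ∀ a, IsUnit (Ideal.Quotient.mk P a) → IsUnit a := fun a ha => hloc.map_nonunit a ha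
    have hdom : (enl (R ⧸ P)).Sat q :=
      hq _ _ ⟨R ⧸ P, inferInstance, inferInstance, id, isIso_id _⟩
    apply hne
    rw [eval_map _ hf, eval_map _ hf]
    apply hdom
    intro p hp
    rw [← eval_map _ hf, ← eval_map _ hf, he p hp]
  tfae_finish

theorem iff_ring (R : Type) [CommRing R] :
    (∀ q : CondEq, (∀ (X : Type) (M : Alg X), IsCID M → M.Sat q) → (enl R).Sat q) ↔
      (Nontrivial R ∧ IsReduced R ∧
        ∀ a x : R, a * x = 0 → x ≠ 0 → a ∈ (⊥ : Ideal R).jacobson) :=
  (tfae R).out 0 2

theorem iff_sat (R : Type) [CommRing R] :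
    ((enl R).Sat E₀ ∧ (enl R).Sat E₁) ↔
      (Nontrivial R ∧ IsReduced R ∧
        ∀ a x : R, a * x = 0 → x ≠ 0 → a ∈ (⊥ : Ideal R).jacobson) :=
  (tfae R).out 1 2

/-- **Main theorem.** (1) For a commutative ring `R` the following are equivalent: `Enl_⊥(R_÷)`
satisfies every conditional equation valid in all integral domains with common division; it satisfies
`E₀` and `E₁`; `R` is nonzero and reduced and all its zero divisors lie in the Jacobson radical; `R`
is nonzero and the prime ideals inside the Jacobson radical have intersection zero. (2) A local ring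
satisfies all these conditional equations iff it is reduced, (3) a nonzero ring with zero Jacobson
radical satisfies them iff it is a domain. (4) `E₀`, `E₁` are valid in all integral domains with
common division. (5) The answer to Q1 is negative. -/
theorem result :
    (∀ (R : Type) [CommRing R], List.TFAE [
      ∀ q : CondEq, (∀ (X : Type) (M : Alg X), IsCID M → M.Sat q) → (enl R).Sat q,
      (enl R).Sat E₀ ∧ (enl R).Sat E₁,
      Nontrivial R ∧ IsReduced R ∧ ∀ a x : R, a * x = 0 → x ≠ 0 → a ∈ (⊥ : Ideal R).jacobson,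
      Nontrivial R ∧ ∀ x : R, x ≠ 0 →
        ∃ P : Ideal R, P.IsPrime ∧ P ≤ (⊥ : Ideal R).jacobson ∧ x ∉ P]) ∧
    (∀ (R : Type) [CommRing R] [IsLocalRing R],
      (∀ q : CondEq, (∀ (X : Type) (M : Alg X), IsCID M → M.Sat q) → (enl R).Sat q) ↔
        IsReduced R) ∧
    (∀ (R : Type) [CommRing R], (⊥ : Ideal R).jacobson = ⊥ →
      ((∀ q : CondEq, (∀ (X : Type) (M : Alg X), IsCID M → M.Sat q) → (enl R).Sat q) ↔
        IsDomain R)) ∧
    (∀ (X : Type) (M : Alg X), IsCID M → M.Sat E₀ ∧ M.Sat E₁) ∧
    ¬ ∃ T : Set CondEq, (∀ q ∈ T, ∀ (X : Type) (M : Alg X), IsCID M → M.Sat q) ∧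
      ∀ (X : Type) (M : Alg X), IsCR M → (IsCID M ↔ ∀ q ∈ T, M.Sat q) := by
  refine ⟨fun R _ => tfae R, fun R _ _ => ?_, fun R _ hJ => ?_, ?_,
    NotDefinable.result.2⟩
  · rw [iff_ring R]
    constructor
    · exact fun h => h.2.1
    · intro hr
      refine ⟨inferInstance, hr, fun a x hax hx => ?_⟩
      rw [IsLocalRing.jacobson_eq_maximalIdeal ⊥ bot_ne_top, IsLocalRing.mem_maximalIdeal]
      intro hu
      exact hx ((hu.mul_right_eq_zero).1 hax)
  · rw [iff_ring R]
    constructor
    · rintro ⟨hn, hr, h⟩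
      have : NoZeroDivisors R := ⟨fun {a b} hab => by
        by_contra hcon
        push Not at hcon
        have := h a b hab hcon.2
        rw [hJ] at this
        exact hcon.1 (by simpa using this)⟩
      exact NoZeroDivisors.to_isDomain R
    · intro hd
      refine ⟨inferInstance, inferInstance, fun a x hax hx => ?_⟩
      rcases mul_eq_zero.1 hax with rfl | h
      · exact Ideal.zero_mem _
      · exact absurd h hx
  · rintro X M ⟨D, _, _, f, hf⟩
    have hD : (enl D).Sat E₀ ∧ (enl D).Sat E₁ := by
      refine (iff_sat D).2 ⟨inferInstance, inferInstance, fun a x hax hx => ?_⟩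
      rcases mul_eq_zero.1 hax with rfl | h
      · exact Ideal.zero_mem _
      · exact absurd h hx
    exact ⟨sat_of_iso hf _ hD.1, sat_of_iso hf _ hD.2⟩

end Pool.Agent.Results.MP_faa006_lc.ExactTheory
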